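import Pool.Agent.R623.WUniv

/-! Machines with a finite header, and the intermediate problem. -/

set_option autoImplicit false

namespace Pool.Agent.R623.WU

open Pool.Agent.H190R3.Wei Nat.Partrec Encodable

/-- read the two first letters, then run the universal machine on the rest -/
def dis (F : ℕ → ℕ → ℕ) (σ : List ℕ) : List ℕ :=
  if 2 ≤ σ.length then U (F (σ.getD 0 0) (σ.getD 1 0)) σ.tail.tail else []

theorem isMachine_dis {F : ℕ → ℕ → ℕ} (hF : Primrec₂ F) : IsMachine (dis F) := by
  refine ⟨Primrec.to_comp ?_, fun a b h => ?_⟩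
  · unfold dis
    refine Primrec.ite (Primrec.nat_le.comp (Primrec.const 2) Primrec.list_length) ?_
      (Primrec.const [])
    refine U_prim.comp (hF.comp ((Primrec.list_getD 0).comp Primrec.id (Primrec.const 0))
      ((Primrec.list_getD 0).comp Primrec.id (Primrec.const 1))) ?_
    exact Primrec.list_tail.comp Primrec.list_tail
  · unfold dis
    split_ifs with h1 h2
    · rw [← getD_of_isPrefix h 0 0 (by omega), ← getD_of_isPrefix h 1 0 (by omega)]
      exact U_mono _ _ _ (tail_mono (tail_mono h))
    · exact absurd (h1.trans h.length_le) h2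
    · exact List.nil_prefix
    · exact List.prefix_rfl

theorem init_two (n A : ℕ) (x : ℕ → ℕ) (m : ℕ) :
    init (tag n (tag A x)) (m + 2) = n :: A :: init x m := by
  rw [show m + 2 = (m + 1) + 1 from rfl, init_tag, init_tag]

theorem maps_dis {F : ℕ → ℕ → ℕ} {n A : ℕ} {x y : ℕ → ℕ} (h : Maps (U (F n A)) x y) :
    Maps (dis F) (tag n (tag A x)) y := by
  have key : ∀ m, dis F (init (tag n (tag A x)) (m + 2)) = U (F n A) (init x m) := by
    intro m
    unfold dis
    rw [init_two]
    simp
  have key0 : ∀ m < 2, dis F (init (tag n (tag A x)) m) = [] := by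
    intro m hm
    unfold dis
    rw [if_neg (by rw [length_init]; omega)]
  refine ⟨fun m => ?_, fun k => ?_⟩
  · by_cases hm : m < 2
    · rw [key0 m hm]; rfl
    · obtain ⟨m', rfl⟩ : ∃ m', m = m' + 2 := ⟨m - 2, by omega⟩
      rw [key]
      exact h.1 _
  · obtain ⟨m, hm⟩ := h.2 k
    exact ⟨m + 2, by rw [key]; exact hm⟩

/-- move the header of the second component to the front -/
def rearr (σ : List ℕ) : List ℕ := (od σ).take 2 ++ pr (ev σ) (od σ).tail.tail

theorem isMachine_rearr : IsMachine rearr := by
  have htt : ∀ l : List ℕ, l.tail.tail.length = l.length - 2 := by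
    intro l; simp [List.length_tail]; omega
  refine ⟨?_, fun a b h => ?_⟩
  · unfold rearr
    refine (Primrec.list_append.to_comp).comp ?_ ?_
    · exact (Primrec.list_take.to_comp).comp (Computable.const 2) isMachine_od.comp
    · exact primrec_pr.to_comp.comp isMachine_ev.comp
        ((Primrec.list_tail.to_comp).comp ((Primrec.list_tail.to_comp).comp isMachine_od.comp))
  · unfold rearr
    have ho := isMachine_od.mono _ _ h
    have he := isMachine_ev.mono _ _ h
    by_cases hl : 2 ≤ (od a).length
    · have h1 : (od b).take 2 = (od a).take 2 := by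
        obtain ⟨t, ht⟩ := ho
        rw [← ht, List.take_append_of_le_length hl]
      rw [h1]
      exact (List.prefix_append_right_inj _).2 (pr_mono he (tail_mono (tail_mono ho)))
    · have h1 : (od a).tail.tail = [] := by
        apply List.eq_nil_of_length_eq_zero
        rw [htt]; omega
      have h2 : pr (ev a) (od a).tail.tail = [] := by
        rw [h1]; simp [pr]
      rw [h2, List.append_nil]
      have h3 : (od a).take 2 = od a := List.take_of_length_le (by omega)
      rw [h3]
      refine List.IsPrefix.trans ?_ (List.prefix_append _ _)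
      rw [List.prefix_take_iff]
      exact ⟨ho, by omega⟩

theorem maps_rearr (x y : ℕ → ℕ) (m B : ℕ) :
    Maps rearr (pair x (tag m (tag B y))) (tag m (tag B (pair x y))) := by
  have hod := maps_od x (tag m (tag B y))
  have hev := maps_ev x (tag m (tag B y))
  have key : ∀ N, 2 ≤ (od (init (pair x (tag m (tag B y))) N)).length →
      rearr (init (pair x (tag m (tag B y))) N) =
      init (tag m (tag B (pair x y))) (2 * min (ev (init (pair x (tag m (tag B y))) N)).length
        ((od (init (pair x (tag m (tag B y))) N)).length - 2) + 2) := by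
    intro N hN
    obtain ⟨r, hr⟩ : ∃ r, (od (init (pair x (tag m (tag B y))) N)).length = r + 2 :=
      ⟨_, (Nat.sub_add_cancel hN).symm⟩
    have h1 : od (init (pair x (tag m (tag B y))) N) = m :: B :: init y r := by
      rw [hod.1 N, hr, init_two]
    unfold rearr
    rw [h1, init_two]
    simp only [List.take_succ_cons, List.take_zero, List.tail_cons, List.cons_append,
      List.nil_append, List.length_cons, length_init]
    rw [hev.1 N, pr_init, length_init]
    simp
  have key0 : ∀ N, (od (init (pair x (tag m (tag B y))) N)).length < 2 →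
      rearr (init (pair x (tag m (tag B y))) N) =
      init (tag m (tag B (pair x y))) (od (init (pair x (tag m (tag B y))) N)).length := by
    intro N hN
    unfold rearr
    have h1 := hod.1 N
    have h2 : (od (init (pair x (tag m (tag B y))) N)).tail.tail = [] := by
      apply List.eq_nil_of_length_eq_zero
      simp only [List.length_tail]; omega
    rw [h2]
    have h3 : pr (ev (init (pair x (tag m (tag B y))) N)) [] = [] := by simp [pr]
    rw [h3, List.append_nil, List.take_of_length_le (by omega)]
    rw [h1, length_init]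
    interval_cases hh : (od (init (pair x (tag m (tag B y))) N)).length
    · rfl
    · simp [init, tag]
  refine ⟨fun N => ?_, fun k => ?_⟩
  · by_cases hN : 2 ≤ (od (init (pair x (tag m (tag B y))) N)).length
    · rw [key N hN, length_init]
    · rw [key0 N (by omega), length_init]
  · obtain ⟨m1, hm1⟩ := hod.2 (k + 2)
    obtain ⟨m2, hm2⟩ := hev.2 k
    have e1 : k + 2 ≤ (od (init (pair x (tag m (tag B y))) (max m1 m2))).length :=
      hm1.trans (isMachine_od.mono _ _ (init_prefix_iff_le (le_max_left m1 m2))).length_le
    have e2 : k ≤ (ev (init (pair x (tag m (tag B y))) (max m1 m2))).length :=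
      hm2.trans (isMachine_ev.mono _ _ (init_prefix_iff_le (le_max_right m1 m2))).length_le
    refine ⟨max m1 m2, ?_⟩
    rw [key _ (by omega), length_init]
    omega

/-- finite information: the first `n + 1` values of `T`, as a number -/
def fin (T : ℕ → ℕ) (n : ℕ) : ℕ := encode ((List.range (n + 1)).map T)

/-- look up the value at `m` of the table coded by `A` if `m ≤ n`, otherwise the value at `n` of the
fixed finite table `L` -/
def look (m : ℕ) (L : List ℕ) (n A : ℕ) : ℕ :=
  if m ≤ n then (Denumerable.ofNat (List ℕ) A).getD m 0 else L.getD n 0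

theorem look_prim (m : ℕ) (L : List ℕ) : Primrec₂ (look m L) := by
  unfold look
  refine Primrec.ite (Primrec.nat_le.comp (Primrec.const m) Primrec.fst) ?_ ?_
  · exact (Primrec.list_getD 0).comp ((Primrec.ofNat (List ℕ)).comp Primrec.snd) (Primrec.const m)
  · exact (Primrec.list_getD 0).comp (Primrec.const L) Primrec.fst

theorem look_spec (t : ℕ → ℕ → ℕ) (m n : ℕ) :
    look m ((List.range m).map fun k => t k m) n (fin (t n) n) = t n m := by
  unfold look fin
  rw [Denumerable.ofNat_encode]
  split_ifs with h
  · rw [List.getD_eq_getElem?_getD]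
    simp [show m < n + 1 by omega]
  · rw [List.getD_eq_getElem?_getD]
    simp [show n < m by omega]

/-- **Interpolation for countable families.** -/
theorem interpolation (f h : ℕ → Problem) (H : ∀ n m, f n ≤ h m) :
    ∃ g : Problem, (∀ n, f n ≤ g) ∧ ∀ m, g ≤ h m := by
  choose φ ψ hφ hψ hred using H
  choose a ha using fun n m => exists_code (hφ n m)
  choose b hb using fun n m => exists_code (hψ n m)
  -- the intermediate problem
  let g : Problem := ⟨fun p => {q | ∃ n x, p = tag n (tag (fin (a n) n) x) ∧
    ((f n).sol x).Nonempty ∧ ∃ m y z, Maps (φ n m) x y ∧ z ∈ (h m).sol y ∧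
      q = tag m (tag (fin (fun k => b k m) m) z)}⟩
  have htag : ∀ {n n' : ℕ} {x x' : ℕ → ℕ}, tag n x = tag n' x' → n = n' ∧ x = x' := by
    intro n n' x x' e
    refine ⟨by simpa [tag] using congrFun e 0, ?_⟩
    funext k
    simpa [tag] using congrFun e (k + 1)
  refine ⟨g, fun n => ?_, fun m => ?_⟩
  · refine ⟨fun σ => n :: (fin (a n) n) :: σ,
      fun σ => dis (look n ((List.range n).map fun k => b n k)) (rearr σ),
      isMachine_cons _ (isMachine_cons _ isMachine_id),
      (isMachine_dis (look_prim _ _)).comp' isMachine_rearr, ?_⟩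
    intro x hx
    refine ⟨tag n (tag (fin (a n) n) x), maps_cons _ (maps_cons _ (maps_id x)), ?_, ?_⟩
    · obtain ⟨y, h1, ⟨z, hz⟩, -⟩ := hred n 0 x hx
      exact ⟨_, n, x, rfl, hx, 0, y, z, h1, hz, rfl⟩
    · rintro q ⟨n', x', e, -, m, y, z, h1, hz, rfl⟩
      obtain ⟨rfl, e⟩ := htag e
      obtain ⟨-, rfl⟩ := htag e
      obtain ⟨y', h2, -, h3⟩ := hred n m x hx
      obtain rfl := Maps.unique h1 h2
      obtain ⟨w, hw, hw'⟩ := h3 z hz
      refine ⟨w, hw, ?_⟩
      refine Maps.comp (isMachine_dis (look_prim _ _)) (maps_rearr x z m _) (maps_dis ?_)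
      rw [look_spec (fun k l => b l k) n m]
      exact maps_U hw' (hb n m)
  · refine ⟨dis (look m ((List.range m).map fun k => a k m)),
      fun σ => m :: (fin (fun k => b k m) m) :: od σ, isMachine_dis (look_prim _ _),
      isMachine_cons _ (isMachine_cons _ isMachine_od), ?_⟩
    rintro p ⟨-, n, x, rfl, hx, -⟩
    obtain ⟨y, h1, h2, -⟩ := hred n m x hx
    refine ⟨y, maps_dis ?_, h2, fun z hz => ?_⟩
    · rw [look_spec a m n]
      exact maps_U h1 (ha n m)
    · exact ⟨_, ⟨n, x, rfl, hx, m, y, z, h1, hz, rfl⟩, maps_cons _ (maps_cons _ (maps_od _ _))⟩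

end Pool.Agent.R623.WU
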