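import Pool.Agent.H190R3.WeiRed

/-! A universal monotone machine on words. -/

set_option autoImplicit false

namespace Pool.Agent.R623.WU

open Pool.Agent.H190R3.Wei Nat.Partrec Encodable

/-- the word computed at stage `k` by the code `e` -/
def cand (e : ℕ) (σ : List ℕ) (k : ℕ) : Option (List ℕ) :=
  (Code.evaln k.unpair.1 (Denumerable.ofNat Code e) (encode (σ.take k.unpair.2))).bind
    fun v => decode (α := List ℕ) v

/-- one step of the universal machine -/
def step (e : ℕ) (σ : List ℕ) (o : List ℕ) (k : ℕ) : List ℕ :=
  if (((cand e σ k).getD []).take o.length) = o then (cand e σ k).getD [] else o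

/-- the universal machine -/
def U (e : ℕ) (σ : List ℕ) : List ℕ := (List.range σ.length).foldl (step e σ) []

theorem step_prefix (e : ℕ) (σ o : List ℕ) (k : ℕ) : o <+: step e σ o k := by
  unfold step
  split_ifs with h
  · exact List.prefix_iff_eq_take.2 h.symm
  · exact List.prefix_rfl

theorem foldl_prefix (e : ℕ) (σ : List ℕ) (l : List ℕ) (o : List ℕ) :
    o <+: l.foldl (step e σ) o := by
  induction l generalizing o with
  | nil => exact List.prefix_rfl
  | cons k l ih => exact (step_prefix e σ o k).trans (ih _)

theorem cand_congr {e : ℕ} {σ τ : List ℕ} (h : σ <+: τ) {k : ℕ} (hk : k < σ.length) :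
    cand e τ k = cand e σ k := by
  unfold cand
  have h1 : k.unpair.2 ≤ σ.length := (Nat.unpair_right_le k).trans hk.le
  obtain ⟨ρ, rfl⟩ := h
  rw [List.take_append_of_le_length h1]

theorem foldl_congr' {e : ℕ} {σ τ : List ℕ} (h : σ <+: τ) :
    ∀ (l : List ℕ), (∀ k ∈ l, k < σ.length) → ∀ o, l.foldl (step e τ) o = l.foldl (step e σ) o := by
  intro l
  induction l with
  | nil => intro _ o; rfl
  | cons k l ih =>
    intro hl o
    have h1 : step e τ o k = step e σ o k := by
      unfold step
      rw [cand_congr h (hl k (by simp))]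
    simp only [List.foldl_cons, h1]
    exact ih (fun j hj => hl j (by simp [hj])) _

theorem U_mono (e : ℕ) (σ τ : List ℕ) (h : σ <+: τ) : U e σ <+: U e τ := by
  unfold U
  obtain ⟨k, hk⟩ := Nat.exists_eq_add_of_le h.length_le
  rw [hk, List.range_add, List.foldl_append, foldl_congr' h _ (fun j hj => List.mem_range.1 hj)]
  exact foldl_prefix _ _ _ _

theorem U_prim : Primrec₂ U := by
  have hc : Primrec fun p : (ℕ × List ℕ) × (List ℕ × ℕ) => cand p.1.1 p.1.2 p.2.2 := by
    unfold cand
    have hk : Primrec fun p : (ℕ × List ℕ) × (List ℕ × ℕ) => p.2.2.unpair :=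
      Primrec.unpair.comp (Primrec.snd.comp Primrec.snd)
    refine Primrec.option_bind ?_ ((Primrec.decode (α := List ℕ)).comp Primrec.snd)
    exact Code.primrec_evaln.comp (Primrec.pair (Primrec.pair (Primrec.fst.comp hk)
      ((Primrec.ofNat Code).comp (Primrec.fst.comp Primrec.fst)))
      ((Primrec.encode (α := List ℕ)).comp (Primrec.list_take.comp (Primrec.snd.comp hk)
        (Primrec.snd.comp Primrec.fst))))
  have hc' : Primrec fun p : (ℕ × List ℕ) × (List ℕ × ℕ) => (cand p.1.1 p.1.2 p.2.2).getD [] :=
    Primrec.option_getD.comp hc (Primrec.const [])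
  have hs : Primrec fun p : (ℕ × List ℕ) × (List ℕ × ℕ) => step p.1.1 p.1.2 p.2.1 p.2.2 := by
    unfold step
    refine Primrec.ite ?_ hc' (Primrec.fst.comp Primrec.snd)
    exact Primrec.eq.comp (Primrec.list_take.comp
      (Primrec.list_length.comp (Primrec.fst.comp Primrec.snd)) hc') (Primrec.fst.comp Primrec.snd)
  have h1 : Primrec fun p : ℕ × List ℕ => List.range p.2.length :=
    Primrec.list_range.comp (Primrec.list_length.comp Primrec.snd)
  have h2 : Primrec fun _ : ℕ × List ℕ => ([] : List ℕ) := Primrec.const []
  exact Primrec.list_foldl h1 h2 hs.to₂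

/-- the outputs of the universal machine on a true code -/
theorem foldl_spec {φ : List ℕ → List ℕ} {x y : ℕ → ℕ} (h : Maps φ x y) {e : ℕ}
    (he : ∀ σ : List ℕ, Code.eval (Denumerable.ofNat Code e) (encode σ) =
      Part.some (encode (φ σ))) (N : ℕ) :
    ∀ m ≤ N, ∃ r, (List.range m).foldl (step e (init x N)) [] = init y r ∧
      ∀ k < m, ∀ v, cand e (init x N) k = some v → v.length ≤ r := by
  intro m
  induction m with
  | zero => intro _; exact ⟨0, rfl, fun k hk => absurd hk (by omega)⟩
  | succ m ih =>
    intro hm
    obtain ⟨r, hr, hr'⟩ := ih (by omega)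
    have hcand : ∀ v, cand e (init x N) m = some v → v = init y v.length := by
      intro v hv
      unfold cand at hv
      rw [Option.bind_eq_some_iff] at hv
      obtain ⟨a, ha, hv⟩ := hv
      have h1 := Code.evaln_sound (Option.mem_def.2 ha)
      rw [he, Part.mem_some_iff] at h1
      rw [h1, encodek] at hv
      have h2 : v = φ ((init x N).take m.unpair.2) := (Option.some.inj hv).symm
      have h3 : (init x N).take m.unpair.2 = init x m.unpair.2 := by
        have h4 : m.unpair.2 ≤ N := (Nat.unpair_right_le m).trans (by omega)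
        unfold init
        rw [← List.map_take, List.take_range, min_eq_left h4]
      rw [h3] at h2
      rw [h2]
      exact h.1 _
    rw [List.range_succ, List.foldl_append, hr]
    simp only [List.foldl_cons, List.foldl_nil]
    cases hc : cand e (init x N) m with
    | none =>
      unfold step
      rw [hc]
      simp only [Option.getD_none, List.take_nil]
      split_ifs with h1
      · have h2 : r = 0 := by
          have := congrArg List.length h1
          simp at this
          exact this.symm
        subst h2
        refine ⟨0, rfl, fun k hk v hv => ?_⟩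
        rcases Nat.lt_succ_iff_lt_or_eq.1 hk with h3 | rfl
        · exact hr' k h3 v hv
        · rw [hc] at hv; exact absurd hv (by simp)
      · refine ⟨r, rfl, fun k hk v hv => ?_⟩
        rcases Nat.lt_succ_iff_lt_or_eq.1 hk with h3 | rfl
        · exact hr' k h3 v hv
        · rw [hc] at hv; exact absurd hv (by simp)
    | some v =>
      have hv := hcand v hc
      unfold step
      rw [hc]
      simp only [Option.getD_some, length_init]
      by_cases hle : r ≤ v.length
      · have h1 : v.take r = init y r := by
          rw [hv]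
          unfold init
          rw [← List.map_take, List.take_range, min_eq_left hle]
        rw [if_pos h1]
        refine ⟨v.length, hv, fun k hk w hw => ?_⟩
        rcases Nat.lt_succ_iff_lt_or_eq.1 hk with h3 | rfl
        · exact (hr' k h3 w hw).trans hle
        · rw [hc] at hw
          rw [← Option.some.inj hw]
      · have h1 : v.take r ≠ init y r := by
          intro h1
          have h2 := congrArg List.length h1
          simp at h2
          omega
        rw [if_neg h1]
        refine ⟨r, rfl, fun k hk w hw => ?_⟩
        rcases Nat.lt_succ_iff_lt_or_eq.1 hk with h3 | rfl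
        · exact hr' k h3 w hw
        · rw [hc] at hw
          rw [← Option.some.inj hw]
          omega

theorem maps_U {φ : List ℕ → List ℕ} {x y : ℕ → ℕ} (h : Maps φ x y) {e : ℕ}
    (he : ∀ σ : List ℕ, Code.eval (Denumerable.ofNat Code e) (encode σ) =
      Part.some (encode (φ σ))) : Maps (U e) x y := by
  have key : ∀ N, ∃ r, U e (init x N) = init y r ∧
      ∀ k < N, ∀ v, cand e (init x N) k = some v → v.length ≤ r := by
    intro N
    obtain ⟨r, h1, h2⟩ := foldl_spec h he N N le_rfl
    refine ⟨r, ?_, h2⟩
    unfold U
    rw [length_init]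
    exact h1
  refine ⟨fun m => ?_, fun n => ?_⟩
  · obtain ⟨r, h1, -⟩ := key m
    rw [h1, length_init]
  · obtain ⟨m, hm⟩ := h.2 n
    have h1 : encode (φ (init x m)) ∈ Code.eval (Denumerable.ofNat Code e) (encode (init x m)) := by
      rw [he]; exact Part.mem_some _
    obtain ⟨t, ht⟩ := Code.evaln_complete.1 h1
    set k := Nat.pair t m with hk
    have hmk : m ≤ k := Nat.right_le_pair t m
    obtain ⟨r, h2, h3⟩ := key (k + 1)
    refine ⟨k + 1, ?_⟩
    rw [h2, length_init]
    refine hm.trans (h3 k (Nat.lt_succ_self k) (φ (init x m)) ?_)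
    unfold cand
    rw [hk, Nat.unpair_pair, ← hk]
    have h4 : (init x (k + 1)).take m = init x m := by
      unfold init
      rw [← List.map_take, List.take_range, min_eq_left (by omega)]
    simp only [h4]
    rw [Option.mem_def.1 ht]
    simp

/-- every machine has a code -/
theorem exists_code {φ : List ℕ → List ℕ} (hφ : IsMachine φ) : ∃ e : ℕ, ∀ σ : List ℕ,
    Code.eval (Denumerable.ofNat Code e) (encode σ) = Part.some (encode (φ σ)) := by
  obtain ⟨c, hc⟩ := Code.exists_code.1 (hφ.comp : Computable φ)
  refine ⟨encode c, fun σ => ?_⟩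
  rw [Denumerable.ofNat_encode, hc]
  simp

theorem isMachine_U (e : ℕ) : IsMachine (U e) :=
  ⟨(U_prim.comp (Primrec.const e) Primrec.id).to_comp, U_mono e⟩

end Pool.Agent.R623.WU
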